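import Pool.Agent.H55.CU.Targets

/-!
# MP_65efe8_pr, board cou, row GSC: the weight of a long excursion
-/

set_option autoImplicit false

open MeasureTheory ProbabilityTheory Filter Topology
open scoped ENNReal
open Pool.Agent.H95 Pool.Agent.H95.Cop Pool.Agent.H96.Cop

namespace Pool.Agent.H61.CU

open Pool.Agent.H55.CU

theorem pf_GSC : T_GSC := by
  intro K α c n0 hα hc hKB
  refine ⟨?_, ?_⟩
  · intro M m hM hn0 hMm
    have h1 := (hKB m (hn0.trans hMm.le)).2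
    have hM0 : (0 : ℝ) < (M : ℝ) := by exact_mod_cast hM
    have h2 : (m : ℝ) ^ (-(1 + α)) ≤ (M : ℝ) ^ (-(1 + α)) :=
      Real.rpow_le_rpow_of_nonpos hM0 (by exact_mod_cast hMm.le) (by linarith)
    have h3 : c * (m : ℝ) ^ (-(1 + α)) ≤ c * (M : ℝ) ^ (-(1 + α)) :=
      mul_le_mul_of_nonneg_left h2 hc.le
    have h4 : kk K m / 2 ≤ 9 / 16 * c * (M : ℝ) ^ (-(1 + α)) := by linarith
    refine ⟨h4, ?_⟩
    unfold pk
    have e : (2⁻¹ : ℝ≥0∞) = ENNReal.ofReal (1 / 2) := by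
      rw [one_div, ENNReal.ofReal_inv_of_pos (by norm_num)]; norm_num
    rw [e, ← ENNReal.ofReal_mul (kk_nonneg K m)]
    apply ENNReal.ofReal_le_ofReal
    linarith
  · intro k J θ hk hJ hθ h1
    have hk0 : (0 : ℝ) < (k : ℝ) := by exact_mod_cast hk
    have hJ1 : (1 : ℝ) ≤ (J : ℝ) := by exact_mod_cast hJ
    have hJ0 : (0 : ℝ) < (J : ℝ) := by linarith
    have hZ : 0 < ZZ α c k := by unfold ZZ; positivity
    have e1 : 9 / 16 * c * ((k * J : ℕ) : ℝ) ^ (-(1 + α)) =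
        9 / 16 * ((ZZ α c k)⁻¹ * (J : ℝ) ^ (-(1 + α))) := by
      push_cast
      rw [Real.mul_rpow hk0.le hJ0.le]
      unfold ZZ
      rw [Real.rpow_neg hk0.le, inv_div]
      field_simp
    rw [e1, Real.mul_rpow (by norm_num) (by positivity), Real.mul_rpow (by positivity)
      (by positivity), ← Real.rpow_mul hJ0.le, Real.inv_rpow hZ.le]
    have h2 : (9 / 16 : ℝ) ^ θ ≤ 1 := Real.rpow_le_one (by norm_num) (by norm_num) hθ.le
    have h3 : (J : ℝ) ^ (-(1 + α) * θ) ≤ (J : ℝ) ^ (-1 : ℝ) :=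
      Real.rpow_le_rpow_of_exponent_le hJ1 (by nlinarith)
    rw [Real.rpow_neg_one] at h3
    have h4 : 0 < (ZZ α c k ^ θ)⁻¹ := by positivity
    have h5 : 0 ≤ (J : ℝ) ^ (-(1 + α) * θ) := by positivity
    calc (9 / 16 : ℝ) ^ θ * ((ZZ α c k ^ θ)⁻¹ * (J : ℝ) ^ (-(1 + α) * θ))
        ≤ 1 * ((ZZ α c k ^ θ)⁻¹ * (J : ℝ)⁻¹) := by
          apply mul_le_mul h2 (mul_le_mul_of_nonneg_left h3 h4.le) (by positivity) zero_le_one
      _ = 1 / J / ZZ α c k ^ θ := by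
          field_simp

end Pool.Agent.H61.CU
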